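import Mathlib

open MvPowerSeries

namespace Pool.Agent.Results.MP_65bbe4_ag.AllEquivalent

universe u

variable {F : Type u} [Field F]

/-- Contact equivalence of pairs `f, g` in `F[[x,y]]²`: there are an invertible matrix
`U` over `F[[x,y]]` and an `F`-algebra automorphism `φ` of `F[[x,y]]` with `g = U · φ(f)`. -/
def ContactEquiv (f g : Fin 2 → MvPowerSeries (Fin 2) F) : Prop :=
  ∃ (U : GL (Fin 2) (MvPowerSeries (Fin 2) F))
    (φ : MvPowerSeries (Fin 2) F ≃ₐ[F] MvPowerSeries (Fin 2) F),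
    g = (U : Matrix (Fin 2) (Fin 2) (MvPowerSeries (Fin 2) F)).mulVec (fun i => φ (f i))

/-- The germ `f_{a,b}` of the problem (`x = X 0`, `y = X 1`). -/
noncomputable def germ (p : ℕ) (lam a b : F) : Fin 2 → MvPowerSeries (Fin 2) F :=
  ![X 0 ^ 2 + X 1 ^ 4,
    X 1 ^ 5 + C lam * X 0 * X 1 ^ 3 + C a * X 0 * X 1 ^ (p + 3) + X 0 * X 1 ^ (p + 4)
      + C b * X 0 * X 1 ^ (2 * p + 3)]

/-- Zariski open subsets of `F⁴`. -/
def IsZariskiOpen (V : Set (Fin 4 → F)) : Prop :=
  ∃ I : Ideal (MvPolynomial (Fin 4) F), V = (MvPolynomial.zeroLocus F I)ᶜ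

theorem map_mulVec' (ψ : MvPowerSeries (Fin 2) F →+* MvPowerSeries (Fin 2) F)
    (M : Matrix (Fin 2) (Fin 2) (MvPowerSeries (Fin 2) F)) (v : Fin 2 → MvPowerSeries (Fin 2) F) :
    (fun i => ψ (M.mulVec v i)) = (M.map ψ).mulVec (fun i => ψ (v i)) := by
  funext i
  exact RingHom.map_mulVec ψ M v i

theorem ContactEquiv.trans {f g h : Fin 2 → MvPowerSeries (Fin 2) F}
    (h1 : ContactEquiv f g) (h2 : ContactEquiv g h) : ContactEquiv f h := by
  obtain ⟨U, φ, hU⟩ := h1
  obtain ⟨V, ψ, hV⟩ := h2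
  refine ⟨V * Matrix.GeneralLinearGroup.map (ψ : MvPowerSeries (Fin 2) F →+* MvPowerSeries (Fin 2) F) U,
    φ.trans ψ, ?_⟩
  have h3 : (fun i => ψ (g i)) =
      ((U : Matrix (Fin 2) (Fin 2) (MvPowerSeries (Fin 2) F)).map
        (ψ : MvPowerSeries (Fin 2) F →+* MvPowerSeries (Fin 2) F)).mulVec
        (fun i => ψ (φ (f i))) := by
    have := map_mulVec' (ψ : MvPowerSeries (Fin 2) F →+* MvPowerSeries (Fin 2) F)
      (U : Matrix (Fin 2) (Fin 2) (MvPowerSeries (Fin 2) F)) (fun i => φ (f i))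
    rw [hU]
    exact this
  rw [hV, h3, Matrix.mulVec_mulVec]
  rfl

theorem ContactEquiv.symm {f g : Fin 2 → MvPowerSeries (Fin 2) F}
    (h1 : ContactEquiv f g) : ContactEquiv g f := by
  obtain ⟨U, φ, hU⟩ := h1
  refine ⟨Matrix.GeneralLinearGroup.map
    (φ.symm : MvPowerSeries (Fin 2) F →+* MvPowerSeries (Fin 2) F) U⁻¹, φ.symm, ?_⟩
  have h2 : (fun i => φ (f i)) =
      ((U⁻¹ : GL (Fin 2) (MvPowerSeries (Fin 2) F)) :
        Matrix (Fin 2) (Fin 2) (MvPowerSeries (Fin 2) F)).mulVec g := by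
    rw [hU, Matrix.mulVec_mulVec]
    rw [← Matrix.GeneralLinearGroup.coe_mul]
    simp
  have h4 := map_mulVec' (φ.symm : MvPowerSeries (Fin 2) F →+* MvPowerSeries (Fin 2) F)
      ((U⁻¹ : GL (Fin 2) (MvPowerSeries (Fin 2) F)) :
        Matrix (Fin 2) (Fin 2) (MvPowerSeries (Fin 2) F)) g
  have h5 : f = fun i => φ.symm ((fun i => φ (f i)) i) := by
    funext i
    simp
  rw [h5]
  rw [h2]
  exact h4

/-- Change of generators by an invertible matrix. -/
theorem contactEquiv_of_matrix {g h : Fin 2 → MvPowerSeries (Fin 2) F}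
    (a b c d : MvPowerSeries (Fin 2) F) (hdet : IsUnit (a * d - b * c))
    (h0 : h 0 = a * g 0 + b * g 1) (h1 : h 1 = c * g 0 + d * g 1) : ContactEquiv g h := by
  have hu : IsUnit (!![a, b; c, d] : Matrix (Fin 2) (Fin 2) (MvPowerSeries (Fin 2) F)) := by
    rw [Matrix.isUnit_iff_isUnit_det, Matrix.det_fin_two]
    simpa using hdet
  obtain ⟨U, hU⟩ := hu
  refine ⟨U, AlgEquiv.refl, ?_⟩
  rw [hU]
  funext i
  fin_cases i
  · simp [h0, Matrix.vecHead, Matrix.vecTail]
  · simp [h1, Matrix.vecHead, Matrix.vecTail]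

/-- Change of coordinates. -/
theorem contactEquiv_of_subst {g h : Fin 2 → MvPowerSeries (Fin 2) F}
    (a b : Fin 2 → MvPowerSeries (Fin 2) F)
    (ha : HasSubst a) (hb : HasSubst b)
    (hab : ∀ i, subst b (a i) = X i) (hba : ∀ i, subst a (b i) = X i)
    (h0 : ∀ i, h i = subst a (g i)) : ContactEquiv g h := by
  have e1 : (substAlgHom (R := F) hb).comp (substAlgHom (R := F) ha) = AlgHom.id F _ := by
    ext1 f
    simp only [AlgHom.comp_apply, substAlgHom_apply, AlgHom.id_apply]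
    rw [subst_comp_subst_apply ha hb]
    have : (fun s => subst b (a s)) = (X : Fin 2 → MvPowerSeries (Fin 2) F) := by
      funext i; exact hab i
    rw [this, subst_self]
    rfl
  have e2 : (substAlgHom (R := F) ha).comp (substAlgHom (R := F) hb) = AlgHom.id F _ := by
    ext1 f
    simp only [AlgHom.comp_apply, substAlgHom_apply, AlgHom.id_apply]
    rw [subst_comp_subst_apply hb ha]
    have : (fun s => subst a (b s)) = (X : Fin 2 → MvPowerSeries (Fin 2) F) := by
      funext i; exact hba i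
    rw [this, subst_self]
    rfl
  refine ⟨1, AlgEquiv.ofAlgHom (substAlgHom (R := F) ha) (substAlgHom (R := F) hb) e2 e1, ?_⟩
  funext i
  simp [h0 i]

/-- `z` lies in `m · (g₀, g₁)`. -/
def Small (g : Fin 2 → MvPowerSeries (Fin 2) F) (z : MvPowerSeries (Fin 2) F) : Prop :=
  ∃ α β : MvPowerSeries (Fin 2) F, constantCoeff α = 0 ∧ constantCoeff β = 0 ∧
    z = α * g 0 + β * g 1

theorem Small.add {g : Fin 2 → MvPowerSeries (Fin 2) F} {z w : MvPowerSeries (Fin 2) F}
    (hz : Small g z) (hw : Small g w) : Small g (z + w) := by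
  obtain ⟨α, β, h1, h2, h3⟩ := hz
  obtain ⟨α', β', h1', h2', h3'⟩ := hw
  exact ⟨α + α', β + β', by simp [h1, h1'], by simp [h2, h2'], by rw [h3, h3']; ring⟩

theorem Small.mul {g : Fin 2 → MvPowerSeries (Fin 2) F} {z : MvPowerSeries (Fin 2) F}
    (c : MvPowerSeries (Fin 2) F) (hz : Small g z) : Small g (c * z) := by
  obtain ⟨α, β, h1, h2, h3⟩ := hz
  exact ⟨c * α, c * β, by simp [h1], by simp [h2], by rw [h3]; ring⟩

theorem Small.of_unit_mul {g : Fin 2 → MvPowerSeries (Fin 2) F} {z : MvPowerSeries (Fin 2) F}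
    (c : MvPowerSeries (Fin 2) F) (hc : constantCoeff c ≠ 0) (hz : Small g (c * z)) :
    Small g z := by
  have := hz.mul c⁻¹
  rwa [← mul_assoc, MvPowerSeries.inv_mul_cancel c hc, one_mul] at this

theorem contactEquiv_of_small {g h : Fin 2 → MvPowerSeries (Fin 2) F}
    (a b c d z w : MvPowerSeries (Fin 2) F) (hdet : constantCoeff (a * d - b * c) ≠ 0)
    (hz : Small g z) (hw : Small g w)
    (h0 : h 0 = a * g 0 + b * g 1 + z) (h1 : h 1 = c * g 0 + d * g 1 + w) :
    ContactEquiv g h := by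
  obtain ⟨α, β, e1, e2, e3⟩ := hz
  obtain ⟨γ, δ, e1', e2', e3'⟩ := hw
  refine contactEquiv_of_matrix (a + α) (b + β) (c + γ) (d + δ) ?_ ?_ ?_
  · rw [MvPowerSeries.isUnit_iff_constantCoeff]
    have : constantCoeff ((a + α) * (d + δ) - (b + β) * (c + γ)) =
        constantCoeff (a * d - b * c) := by
      simp [e1, e2, e1', e2']
    rw [this]
    exact isUnit_iff_ne_zero.mpr hdet
  · rw [h0, e3]; ring
  · rw [h1, e3']; ring

/-- The normal form `(x² + 2λxy², xy³ + y^{p+5}(c₀ + c₁y))`. -/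
noncomputable def nf (p : ℕ) (lam c₀ c₁ : F) : Fin 2 → MvPowerSeries (Fin 2) F :=
  ![X 0 ^ 2 + C (2 * lam) * X 0 * X 1 ^ 2,
    X 0 * X 1 ^ 3 + X 1 ^ (p + 5) * (C c₀ + C c₁ * X 1)]

theorem small_nf_aux (q : ℕ) (lam c₀ c₁ : F) (h2 : (2 : F) ≠ 0) (hlam : lam ≠ 0) (hc : c₀ ≠ 0) :
    Small (nf (q + 3) lam c₀ c₁) (X 0 * X 1 ^ 5) ∧ Small (nf (q + 3) lam c₀ c₁) (X 1 ^ (q + 10)) := by
  have hx : Small (nf (q + 3) lam c₀ c₁) (X 0 * X 1 ^ 5) := by
    apply Small.of_unit_mul (X 1 ^ (q + 3) * (C c₀ + C c₁ * X 1) - C (2 * lam))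
    · simp [h2, hlam]
    · refine ⟨- X 1 ^ 3, X 0, by simp, by simp, ?_⟩
      simp only [nf, Matrix.cons_val_zero, Matrix.cons_val_one]
      ring
  refine ⟨hx, ?_⟩
  apply Small.of_unit_mul (C c₀ + C c₁ * X 1)
  · simp [hc]
  · have h1 : Small (nf (q + 3) lam c₀ c₁) (X 1 ^ 2 * (nf (q + 3) lam c₀ c₁ 1)) :=
      ⟨0, X 1 ^ 2, by simp, by simp, by ring⟩
    have := h1.add (hx.mul (-1))
    convert this using 1
    simp only [nf, Matrix.cons_val_one, Matrix.cons_val_zero]
    ring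

/-- The coordinate change `x ↦ α (x + P)`, `y ↦ y`, with `α`, `P` series in `y` only. -/
theorem affine_equiv (g : Fin 2 → MvPowerSeries (Fin 2) F) (α P : MvPowerSeries (Fin 2) F)
    (hα : constantCoeff α ≠ 0) (hP : constantCoeff P = 0)
    (hα' : ∀ Q : MvPowerSeries (Fin 2) F, constantCoeff Q = 0 → subst ![Q, X 1] α = α)
    (hP' : ∀ Q : MvPowerSeries (Fin 2) F, constantCoeff Q = 0 → subst ![Q, X 1] P = P) :
    ContactEquiv g (fun i => subst ![α * (X 0 + P), X 1] (g i)) := by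
  have ha : HasSubst (![α * (X 0 + P), X 1] : Fin 2 → MvPowerSeries (Fin 2) F) :=
    hasSubst_of_constantCoeff_zero (by intro s; fin_cases s <;> simp [hP])
  have hb : HasSubst (![α⁻¹ * X 0 - P, X 1] : Fin 2 → MvPowerSeries (Fin 2) F) :=
    hasSubst_of_constantCoeff_zero (by intro s; fin_cases s <;> simp [hP])
  refine contactEquiv_of_subst _ ![α⁻¹ * X 0 - P, X 1] ha hb ?_ ?_ (fun i => rfl)
  · intro i
    fin_cases i
    · simp only [Fin.zero_eta, Matrix.cons_val_zero]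
      rw [subst_mul hb, subst_add hb, subst_X hb, hP' _ (by simp [hP]), hα' _ (by simp [hP])]
      simp only [Matrix.cons_val_zero, sub_add_cancel]
      rw [← mul_assoc, MvPowerSeries.mul_inv_cancel α hα, one_mul]
    · simp [subst_X hb]
  · intro i
    fin_cases i
    · simp only [Fin.zero_eta, Matrix.cons_val_zero]
      rw [subst_sub ha, subst_mul ha, subst_X ha, hP' _ (by simp [hP])]
      have h1 : subst ![α * (X 0 + P), X 1] α⁻¹ = α⁻¹ := by
        rw [MvPowerSeries.eq_inv_iff_mul_eq_one hα]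
        have h2 := hα' (α * (X 0 + P)) (by simp [hP])
        calc subst ![α * (X 0 + P), X 1] α⁻¹ * α
            = subst ![α * (X 0 + P), X 1] α⁻¹ * subst ![α * (X 0 + P), X 1] α := by rw [h2]
          _ = subst ![α * (X 0 + P), X 1] (α⁻¹ * α) := by rw [subst_mul ha]
          _ = 1 := by
            rw [MvPowerSeries.inv_mul_cancel α hα, ← substAlgHom_apply ha, map_one]
      rw [h1]
      simp only [Matrix.cons_val_zero]
      rw [← mul_assoc, MvPowerSeries.inv_mul_cancel α hα, one_mul]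
      ring
    · simp [subst_X ha]

/-- The coordinate change `x ↦ u x`, `y ↦ s y`. -/
theorem scale_equiv (g : Fin 2 → MvPowerSeries (Fin 2) F) (u s : F) (hu : u ≠ 0) (hs : s ≠ 0) :
    ContactEquiv g (fun i => subst ![C u * X 0, C s * X 1] (g i)) := by
  have ha : HasSubst (![C u * X 0, C s * X 1] : Fin 2 → MvPowerSeries (Fin 2) F) :=
    hasSubst_of_constantCoeff_zero (by intro s; fin_cases s <;> simp)
  have hb : HasSubst (![C u⁻¹ * X 0, C s⁻¹ * X 1] : Fin 2 → MvPowerSeries (Fin 2) F) :=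
    hasSubst_of_constantCoeff_zero (by intro s; fin_cases s <;> simp)
  refine contactEquiv_of_subst _ ![C u⁻¹ * X 0, C s⁻¹ * X 1] ha hb ?_ ?_ (fun i => rfl)
  · intro i
    fin_cases i
    · simp only [Fin.zero_eta, Matrix.cons_val_zero]
      rw [subst_mul hb, subst_X hb, subst_C]
      simp only [Matrix.cons_val_zero]
      rw [← mul_assoc, ← map_mul, mul_inv_cancel₀ hu, map_one, one_mul]
    · simp only [Fin.mk_one, Matrix.cons_val_one, Matrix.cons_val_zero]
      rw [subst_mul hb, subst_X hb, subst_C]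
      simp only [Matrix.cons_val_one, Matrix.cons_val_zero]
      rw [← mul_assoc, ← map_mul, mul_inv_cancel₀ hs, map_one, one_mul]
  · intro i
    fin_cases i
    · simp only [Fin.zero_eta, Matrix.cons_val_zero]
      rw [subst_mul ha, subst_X ha, subst_C]
      simp only [Matrix.cons_val_zero]
      rw [← mul_assoc, ← map_mul, inv_mul_cancel₀ hu, map_one, one_mul]
    · simp only [Fin.mk_one, Matrix.cons_val_one, Matrix.cons_val_zero]
      rw [subst_mul ha, subst_X ha, subst_C]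
      simp only [Matrix.cons_val_one, Matrix.cons_val_zero]
      rw [← mul_assoc, ← map_mul, inv_mul_cancel₀ hs, map_one, one_mul]

theorem C_sq_neg_one {lam : F} (h : lam ^ 2 = -1) :
    (C lam : MvPowerSeries (Fin 2) F) ^ 2 = -1 := by
  rw [← map_pow, h]; simp

/-- The germ after the shift `x ↦ x + λ y²`. -/
noncomputable def germ' (p : ℕ) (lam a b : F) : Fin 2 → MvPowerSeries (Fin 2) F :=
  ![X 0 ^ 2 + C (2 * lam) * X 0 * X 1 ^ 2,
    X 0 * X 1 ^ 3 * (C lam + X 1 ^ p * (C a + X 1 + C b * X 1 ^ p)) +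
      C lam * X 1 ^ (p + 5) * (C a + X 1 + C b * X 1 ^ p)]

theorem germ_equiv_germ' (p : ℕ) (lam a b : F) (h : lam ^ 2 = -1) :
    ContactEquiv (germ p lam a b) (germ' p lam a b) := by
  have h1 := affine_equiv (germ p lam a b) 1 (C lam * X 1 ^ 2) (by simp) (by simp)
    (by
      intro Q hQ
      have ha : HasSubst (![Q, X 1] : Fin 2 → MvPowerSeries (Fin 2) F) :=
        hasSubst_of_constantCoeff_zero (by intro s; fin_cases s <;> simp [hQ])
      rw [← substAlgHom_apply ha, map_one])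
    (by
      intro Q hQ
      have ha : HasSubst (![Q, X 1] : Fin 2 → MvPowerSeries (Fin 2) F) :=
        hasSubst_of_constantCoeff_zero (by intro s; fin_cases s <;> simp [hQ])
      rw [subst_mul ha, subst_pow ha, subst_X ha, subst_C]
      simp)
  convert h1 using 1
  have ha : HasSubst (![1 * (X 0 + C lam * X 1 ^ 2), X 1] : Fin 2 → MvPowerSeries (Fin 2) F) :=
    hasSubst_of_constantCoeff_zero (by intro s; fin_cases s <;> simp)
  have hl := C_sq_neg_one (F := F) h
  have h3 : (C (2 * lam) : MvPowerSeries (Fin 2) F) = 2 * C lam := by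
    rw [map_mul]; congr 1
  funext i
  fin_cases i
  · simp only [germ', germ, Fin.zero_eta, Matrix.cons_val_zero, subst_add ha,
      subst_pow ha, subst_X ha, Matrix.cons_val_one]
    linear_combination (- X 1 ^ 4) * hl + (X 0 * X 1 ^ 2) * h3
  · simp only [germ', germ, Fin.mk_one, Matrix.cons_val_zero, subst_add ha, subst_mul ha,
      subst_pow ha, subst_X ha, subst_C, Matrix.cons_val_one]
    linear_combination (- X 1 ^ 5) * hl

theorem germ'_equiv_nf (q : ℕ) (lam a b : F) (h2 : (2 : F) ≠ 0) (hlam : lam ≠ 0) (ha : a ≠ 0) :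
    ContactEquiv (germ' (q + 3) lam a b) (nf (q + 3) lam a 1) := by
  apply ContactEquiv.symm
  obtain ⟨hx, hy⟩ := small_nf_aux q lam a 1 h2 hlam ha
  have h1 := (hx.mul (X 1 ^ (q + 1) * (C a + X 1 + C b * X 1 ^ (q + 3)))).add
    (hy.mul (C lam * C b * X 1 ^ (q + 1)))
  refine contactEquiv_of_small 1 0 0 (C lam) 0 _ ?_ ⟨0, 0, by simp, by simp, by simp⟩ h1 ?_ ?_
  · simp [hlam]
  · simp [germ', nf]
  · simp only [germ', nf, Matrix.cons_val_one, Matrix.cons_val_zero, map_one]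
    ring

theorem nf_scale (p : ℕ) (lam c₀ c₁ s : F) (hs : s ≠ 0) :
    ContactEquiv (nf p lam c₀ c₁) (nf p lam (s ^ p * c₀) (s ^ (p + 1) * c₁)) := by
  have h1 := scale_equiv (nf p lam c₀ c₁) (s ^ 2) s (pow_ne_zero 2 hs) hs
  have ha : HasSubst (![C (s ^ 2) * X 0, C s * X 1] : Fin 2 → MvPowerSeries (Fin 2) F) :=
    hasSubst_of_constantCoeff_zero (by intro s; fin_cases s <;> simp)
  refine ContactEquiv.trans h1 (ContactEquiv.symm ?_)
  refine contactEquiv_of_matrix (C (s ^ 4)) 0 0 (C (s ^ 5)) ?_ ?_ ?_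
  · rw [MvPowerSeries.isUnit_iff_constantCoeff]
    simp [hs]
  · simp only [nf, Matrix.cons_val_zero, subst_add ha, subst_mul ha,
      subst_pow ha, subst_X ha, subst_C, Matrix.cons_val_one]
    simp only [map_pow, map_mul]
    ring
  · simp only [nf, Matrix.cons_val_zero, subst_add ha, subst_mul ha,
      subst_pow ha, subst_X ha, subst_C, Matrix.cons_val_one]
    simp only [map_pow, map_mul]
    ring

theorem nf_slide (q : ℕ) (lam c₀ c₁ k : F) (h2 : (2 : F) ≠ 0) (hlam : lam ≠ 0) (hc : c₀ ≠ 0) :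
    ContactEquiv (nf (q + 3) lam c₀ (c₁ - 2 * k * c₀)) (nf (q + 3) lam c₀ c₁) := by
  have key : ∀ Q : MvPowerSeries (Fin 2) F, constantCoeff Q = 0 →
      HasSubst (![Q, X 1] : Fin 2 → MvPowerSeries (Fin 2) F) := fun Q hQ =>
    hasSubst_of_constantCoeff_zero (by intro s; fin_cases s <;> simp [hQ])
  have h1 := affine_equiv (nf (q + 3) lam c₀ (c₁ - 2 * k * c₀)) (1 - C k * X 1)
    (C k * X 1 ^ (q + 6) * (C c₀ + C c₁ * X 1)) (by simp) (by simp)
    (by
      intro Q hQ
      have ha := key Q hQ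
      have h1 : subst (R := F) ![Q, X 1] (1 : MvPowerSeries (Fin 2) F) = 1 := by
        rw [← substAlgHom_apply ha, map_one]
      rw [subst_sub ha, subst_mul ha, subst_X ha, subst_C, h1]
      simp)
    (by
      intro Q hQ
      have ha := key Q hQ
      simp only [subst_add ha, subst_mul ha, subst_pow ha, subst_X ha, subst_C]
      simp)
  refine ContactEquiv.trans h1 (ContactEquiv.symm ?_)
  have ha : HasSubst (![(1 - C k * X 1) * (X 0 + C k * X 1 ^ (q + 6) * (C c₀ + C c₁ * X 1)), X 1] :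
      Fin 2 → MvPowerSeries (Fin 2) F) := key _ (by simp)
  obtain ⟨hx, hy⟩ := small_nf_aux q lam c₀ c₁ h2 hlam hc
  have hz := (hx.mul (2 * (1 - C k * X 1) ^ 2 * C k * (C c₀ + C c₁ * X 1) * X 1 ^ (q + 1))).add
    (hy.mul ((1 - C k * X 1) ^ 2 * C k ^ 2 * (C c₀ + C c₁ * X 1) ^ 2 * X 1 ^ (q + 2)))
  have hw := hy.mul (2 * C k * C c₁ - C k ^ 2 * (C c₀ + C c₁ * X 1))
  have h3 : (C (2 : F) : MvPowerSeries (Fin 2) F) = 2 := map_ofNat _ 2
  refine contactEquiv_of_small ((1 - C k * X 1) ^ 2) (C (2 * lam) * (1 - C k * X 1) * C k) 0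
    (1 - C k * X 1) _ _ ?_ hz hw ?_ ?_
  · simp
  · simp only [nf, Matrix.cons_val_zero, subst_add ha, subst_mul ha,
      subst_pow ha, subst_X ha, subst_C, Matrix.cons_val_one]
    simp only [map_mul, h3]
    ring
  · simp only [nf, Matrix.cons_val_zero, subst_add ha, subst_mul ha,
      subst_pow ha, subst_X ha, subst_C, Matrix.cons_val_one]
    simp only [map_mul, map_sub, h3]
    ring

/-- Normal form for `p = 2`: `(x² + c²y⁸ + y¹⁰, xy³)`. -/
noncomputable def nf2 (c : F) : Fin 2 → MvPowerSeries (Fin 2) F :=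
  ![X 0 ^ 2 + C c ^ 2 * X 1 ^ 8 + X 1 ^ 10, X 0 * X 1 ^ 3]

theorem small_nf2 (c : F) (hc : c ≠ 0) : Small (nf2 c) (X 1 ^ 11) := by
  apply Small.of_unit_mul (C c ^ 2 + X 1 ^ 2)
  · simp [hc]
  · refine ⟨X 1 ^ 3, - X 0, by simp, by simp, ?_⟩
    simp only [nf2, Matrix.cons_val_zero, Matrix.cons_val_one]
    ring

theorem germ'_equiv_nf2 (lam a b : F) (h2 : (2 : F) = 0) (hlam : lam = 1) (ha : a ≠ 0) :
    ContactEquiv (germ' 2 lam a b) (nf2 a) := by
  have key : ∀ Q : MvPowerSeries (Fin 2) F, constantCoeff Q = 0 →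
      HasSubst (![Q, X 1] : Fin 2 → MvPowerSeries (Fin 2) F) := fun Q hQ =>
    hasSubst_of_constantCoeff_zero (by intro s; fin_cases s <;> simp [hQ])
  subst hlam
  have h1 := affine_equiv (germ' 2 1 a b) 1
    (X 1 ^ 4 * (C a + X 1 + C b * X 1 ^ 2) + X 1 ^ 6 * (C a + X 1 + C b * X 1 ^ 2) ^ 2)
    (by simp) (by simp)
    (by
      intro Q hQ
      have ha := key Q hQ
      rw [← substAlgHom_apply ha, map_one])
    (by
      intro Q hQ
      have ha := key Q hQ
      simp only [subst_add ha, subst_mul ha, subst_pow ha, subst_X ha, subst_C]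
      simp)
  refine ContactEquiv.trans h1 (ContactEquiv.symm ?_)
  have ha' : HasSubst (![1 * (X 0 + (X 1 ^ 4 * (C a + X 1 + C b * X 1 ^ 2) +
      X 1 ^ 6 * (C a + X 1 + C b * X 1 ^ 2) ^ 2)), X 1] :
      Fin 2 → MvPowerSeries (Fin 2) F) := key _ (by simp)
  have hy := small_nf2 a ha
  have hz := hy.mul (C b ^ 2 * X 1 + X 1 * (C a + X 1 + C b * X 1 ^ 2) ^ 4)
  have hw := hy.mul ((C a + X 1 + C b * X 1 ^ 2) ^ 3)
  have h2' : (2 : MvPowerSeries (Fin 2) F) = 0 := by
    have : (C (2 : F) : MvPowerSeries (Fin 2) F) = 2 := map_ofNat _ 2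
    rw [← this, h2, map_zero]
  refine contactEquiv_of_small 1 0 0
    (1 + X 1 ^ 2 * (C a + X 1 + C b * X 1 ^ 2)) _ _ ?_ hz hw ?_ ?_
  · simp
  · simp only [germ', nf2, Matrix.cons_val_zero, subst_add ha', subst_mul ha',
      subst_pow ha', subst_X ha', subst_C, Matrix.cons_val_one]
    simp only [mul_one, h2, map_zero]
    linear_combination (X 0 * (X 1 ^ 4 * (C a + X 1 + C b * X 1 ^ 2) +
      X 1 ^ 6 * (C a + X 1 + C b * X 1 ^ 2) ^ 2) +
      X 1 ^ 10 * (C a + X 1 + C b * X 1 ^ 2) ^ 3 + X 1 ^ 8 * (C a * X 1 + C a * C b * X 1 ^ 2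
        + C b * X 1 ^ 3)) * h2'
  · simp only [germ', nf2, Matrix.cons_val_zero, subst_add ha', subst_mul ha',
      subst_pow ha', subst_X ha', subst_C, Matrix.cons_val_one]
    simp only [map_one]
    linear_combination (X 1 ^ 7 * (C a + X 1 + C b * X 1 ^ 2) +
      X 1 ^ 9 * (C a + X 1 + C b * X 1 ^ 2) ^ 2) * h2'

theorem nf2_scale (c : F) (hc : c ≠ 0) : ContactEquiv (nf2 c) (nf2 1) := by
  have h1 := scale_equiv (nf2 c) (c ^ 5) c (pow_ne_zero 5 hc) hc
  have ha : HasSubst (![C (c ^ 5) * X 0, C c * X 1] : Fin 2 → MvPowerSeries (Fin 2) F) :=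
    hasSubst_of_constantCoeff_zero (by intro s; fin_cases s <;> simp)
  refine ContactEquiv.trans h1 (ContactEquiv.symm ?_)
  refine contactEquiv_of_matrix (C (c ^ 10)) 0 0 (C (c ^ 8)) ?_ ?_ ?_
  · rw [MvPowerSeries.isUnit_iff_constantCoeff]
    simp [hc]
  · simp only [nf2, Matrix.cons_val_zero, subst_add ha, subst_mul ha,
      subst_pow ha, subst_X ha, subst_C, Matrix.cons_val_one]
    simp only [map_pow, map_one]
    ring
  · simp only [nf2, Matrix.cons_val_zero, subst_mul ha,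
      subst_pow ha, subst_X ha, Matrix.cons_val_one]
    simp only [map_pow]
    ring

theorem all_equiv_two (lam a b c d : F) (h2 : (2 : F) = 0) (h : lam ^ 2 = -1)
    (ha : a ≠ 0) (hc : c ≠ 0) : ContactEquiv (germ 2 lam a b) (germ 2 lam c d) := by
  have hlam : lam = 1 := by
    have : (lam - 1) ^ 2 = 0 := by linear_combination h - lam * h2
    exact sub_eq_zero.mp (pow_eq_zero_iff (two_ne_zero) |>.mp this)
  have key : ∀ a b : F, a ≠ 0 → ContactEquiv (germ 2 lam a b) (nf2 1) := fun a b ha =>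
    ((germ_equiv_germ' 2 lam a b h).trans (germ'_equiv_nf2 lam a b h2 hlam ha)).trans
      (nf2_scale a ha)
  exact (key a b ha).trans (key c d hc).symm

theorem all_equiv_odd [IsAlgClosed F] (q : ℕ) (lam a b c d : F) (h2 : (2 : F) ≠ 0)
    (h : lam ^ 2 = -1) (ha : a ≠ 0) (hc : c ≠ 0) :
    ContactEquiv (germ (q + 3) lam a b) (germ (q + 3) lam c d) := by
  have hlam : lam ≠ 0 := by
    rintro rfl
    simp at h
  obtain ⟨s, hs⟩ := IsAlgClosed.exists_pow_nat_eq (c / a) (n := q + 3) (by omega)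
  have hs0 : s ≠ 0 := by
    rintro rfl
    rw [zero_pow (by omega)] at hs
    exact (div_ne_zero hc ha) hs.symm
  have h1 := (germ_equiv_germ' (q + 3) lam a b h).trans (germ'_equiv_nf q lam a b h2 hlam ha)
  have h3 := nf_scale (q + 3) lam a 1 s hs0
  have e1 : s ^ (q + 3) * a = c := by rw [hs]; field_simp
  rw [e1] at h3
  have h4 := nf_slide q lam c 1 ((1 - s ^ (q + 3 + 1)) / (2 * c)) h2 hlam hc
  have e2 : (1 : F) - 2 * ((1 - s ^ (q + 3 + 1)) / (2 * c)) * c = s ^ (q + 3 + 1) * 1 := by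
    field_simp
    ring
  rw [e2] at h4
  have h5 := (germ_equiv_germ' (q + 3) lam c d h).trans (germ'_equiv_nf q lam c d h2 hlam hc)
  exact ((h1.trans h3).trans h4).trans h5.symm

theorem all_equiv (p : ℕ) [hp : Fact p.Prime] [IsAlgClosed F] [CharP F p] (lam a b c d : F)
    (h : lam ^ 2 = -1) (ha : a ≠ 0) (hc : c ≠ 0) :
    ContactEquiv (germ p lam a b) (germ p lam c d) := by
  rcases hp.out.eq_two_or_odd' with rfl | hodd
  · have h2 : (2 : F) = 0 := by
      have := CharP.cast_eq_zero F 2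
      simpa using this
    exact all_equiv_two lam a b c d h2 h ha hc
  · have h3 : 3 ≤ p := by
      have := hp.out.two_le
      rcases hodd with ⟨k, hk⟩
      omega
    obtain ⟨q, rfl⟩ : ∃ q, p = q + 3 := ⟨p - 3, by omega⟩
    have h2 : (2 : F) ≠ 0 := by
      intro h2
      have h2' : ((2 : ℕ) : F) = 0 := by exact_mod_cast h2
      rw [CharP.cast_eq_zero_iff F (q + 3)] at h2'
      have := Nat.le_of_dvd (by norm_num) h2'
      omega
    exact all_equiv_odd q lam a b c d h2 h ha hc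

/-- For every prime `p`, every algebraically closed field `F` of characteristic `p` and every
`λ ∈ F` with `λ² = -1`: all germs `f_{a,b}` with `a ≠ 0` are contact equivalent to each other;
in particular every nonempty Zariski open subset of `F⁴` contains a point `(a,b,c,d)` with
`f_{a,b} ∼ f_{c,d}`. -/
theorem result (p : ℕ) [Fact p.Prime] (F : Type u) [Field F] [IsAlgClosed F] [CharP F p]
    (lam : F) (hlam : lam ^ 2 = -1) :
    (∀ a b c d : F, a ≠ 0 → c ≠ 0 → ContactEquiv (germ p lam a b) (germ p lam c d)) ∧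
    (∀ V : Set (Fin 4 → F), IsZariskiOpen V → V.Nonempty →
      ∃ v ∈ V, ContactEquiv (germ p lam (v 0) (v 1)) (germ p lam (v 2) (v 3))) := by
  refine ⟨fun a b c d ha hc => all_equiv p lam a b c d hlam ha hc, ?_⟩
  rintro V ⟨I, rfl⟩ ⟨w, hw⟩
  rw [Set.mem_compl_iff, MvPolynomial.mem_zeroLocus_iff] at hw
  push Not at hw
  obtain ⟨P, hPI, hP⟩ := hw
  have hP0 : P ≠ 0 := by
    rintro rfl
    simp at hP
  have hne : P * MvPolynomial.X 0 * MvPolynomial.X 2 ≠ 0 :=
    mul_ne_zero (mul_ne_zero hP0 (MvPolynomial.X_ne_zero 0)) (MvPolynomial.X_ne_zero 2)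
  have : Infinite F := IsAlgClosed.instInfinite
  obtain ⟨v, hv⟩ : ∃ v : Fin 4 → F,
      MvPolynomial.eval v (P * MvPolynomial.X 0 * MvPolynomial.X 2) ≠ 0 := by
    by_contra hcon
    push Not at hcon
    exact hne (MvPolynomial.funext (fun x => by simpa using hcon x))
  simp only [map_mul, MvPolynomial.eval_X, mul_ne_zero_iff] at hv
  refine ⟨v, ?_, all_equiv p lam _ _ _ _ hlam hv.1.2 hv.2⟩
  rw [Set.mem_compl_iff, MvPolynomial.mem_zeroLocus_iff]
  push Not
  exact ⟨P, hPI, by simpa [MvPolynomial.aeval_eq_eval] using hv.1.1⟩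

end Pool.Agent.Results.MP_65bbe4_ag.AllEquivalent
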